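import Pool.Agent.H98.PW.Stmts

/-!
# PW, module ELM: elimination modulo a power of a prime
-/

set_option autoImplicit false

namespace Pool.PW

open Finset Filter MvPolynomial Pool.Agent.H98.ABCR

namespace ElmH12

variable {n : ℕ}

/-- no terms of degree less than two -/
def Hi (Q : MvPolynomial (Fin n) ℤ) : Prop := ∀ a ∈ Q.support, 2 ≤ ∑ l, a l

lemma hi_zero : Hi (0 : MvPolynomial (Fin n) ℤ) := by
  intro a ha
  simp at ha

lemma hi_add {Q R : MvPolynomial (Fin n) ℤ} (hQ : Hi Q) (hR : Hi R) : Hi (Q + R) := by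
  classical
  intro a ha
  rcases Finset.mem_union.mp (MvPolynomial.support_add ha) with h | h
  · exact hQ a h
  · exact hR a h

lemma hi_smul {Q : MvPolynomial (Fin n) ℤ} (c : ℤ) (hQ : Hi Q) : Hi (C c * Q) := by
  intro a ha
  apply hQ a
  rw [MvPolynomial.mem_support_iff] at ha ⊢
  intro h
  apply ha
  rw [MvPolynomial.coeff_C_mul, h, mul_zero]

lemma hi_sum {ι : Type} (s : Finset ι) (Q : ι → MvPolynomial (Fin n) ℤ) (h : ∀ k ∈ s, Hi (Q k)) :
    Hi (∑ k ∈ s, Q k) := by
  classical
  induction s using Finset.induction_on with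
  | empty => simpa using hi_zero
  | insert a s has ih =>
    rw [Finset.sum_insert has]
    exact hi_add (h a (Finset.mem_insert_self a s))
      (ih fun k hk => h k (Finset.mem_insert_of_mem hk))

/-- inverses modulo a power of a prime -/
lemma inv_pow {p r : ℕ} (hp : p.Prime) {a : ℤ} (h : ¬ (p : ℤ) ∣ a) :
    ∃ u : ℤ, (p : ℤ) ^ r ∣ a * u - 1 := by
  have hP : Prime (p : ℤ) := Nat.prime_iff_prime_int.mp hp
  have h1 : IsCoprime (p : ℤ) a := (Prime.coprime_iff_not_dvd hP).mpr h
  have h2 : IsCoprime ((p : ℤ) ^ r) a := h1.pow_left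
  obtain ⟨x, y, hxy⟩ := h2
  refine ⟨y, ⟨-x, ?_⟩⟩
  linear_combination hxy

end ElmH12

open ElmH12 in
theorem elm_thm (hT : S_TAY) : S_ELM := by
  classical
  intro n r p J i P G F hp hiJ hG hF hnd k
  -- values
  set D : Fin n → Fin n → ℤ := fun j l => eval P (pderiv j (G l)) with hD
  set f : Fin n → ℤ := fun j => eval P (pderiv j F) with hf
  set b : ℤ := eval P (bb J G) with hb
  set bl : Fin n → ℤ := fun l => eval P (bk J G l) with hbl
  set E : Fin n → ℤ := fun j => eval P (EE J G j F) with hE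
  have hbE : ¬ (p : ℤ) ∣ b ∧ ¬ (p : ℤ) ∣ E i := by
    rw [map_mul] at hnd
    exact ⟨fun h => hnd (Dvd.dvd.mul_right h _), fun h => hnd (Dvd.dvd.mul_left h _)⟩
  have hbprod : b = ∏ l ∈ univ \ J, D l l := by
    rw [hb]
    unfold bb
    rw [map_prod]
  have hbbl : ∀ l, l ∉ J → b = D l l * bl l := by
    intro l hl
    rw [hbprod, hbl]
    simp only
    unfold bk
    rw [map_prod, Finset.mul_prod_erase _ (fun l => D l l) (by simp [hl])]
  have hDl : ∀ l, l ∉ J → ¬ (p : ℤ) ∣ D l l := by
    intro l hl h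
    apply hbE.1
    rw [hbbl l hl]
    exact Dvd.dvd.mul_right h _
  have hEj : ∀ j, E j = b * f j - ∑ l ∈ univ \ J, bl l * D j l * f l := by
    intro j
    simp only [hE, hb, hf, hbl, hD]
    unfold EE
    rw [map_sub, map_mul, map_sum]
    congr 1
    refine Finset.sum_congr rfl fun l _ => ?_
    rw [map_mul, map_mul]
  -- Taylor
  have hQG : ∀ l, ∃ Q : MvPolynomial (Fin n) ℤ, Hi Q ∧ ∀ w : Fin n → ℤ,
      eval (fun k => P k + w k) (G l) = eval P (G l) + ∑ k, D k l * w k + eval w Q :=
    fun l => hT n P (G l)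
  choose QG hQG1 hQG2 using hQG
  obtain ⟨QF, hQF1, hQF2⟩ := hT n P F
  -- the relations
  have hvar : ∀ l, l ∉ J → ∀ k, k ∉ insert l J → D k l = 0 := by
    intro l hl k hk
    have h1 : k ∉ (G l).vars := fun h => hk ((hG l hl).1 h)
    have h2 : pderiv k (G l) = 0 := pderiv_eq_zero_of_notMem_vars h1
    simp only [hD, h2, map_zero]
  have hrel : ∀ l, l ∉ J → ∀ w : Fin n → ℤ, eval (fun j => P j + w j) (G l) = 0 →
      D l l * w l + ∑ j ∈ J, D j l * w j + eval w (QG l) = 0 := by
    intro l hl w hw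
    have h1 := hQG2 l w
    rw [hw, (hG l hl).2, zero_add] at h1
    have h2 : ∑ k, D k l * w k = ∑ k ∈ insert l J, D k l * w k := by
      symm
      refine Finset.sum_subset (Finset.subset_univ _) fun k _ hk => ?_
      rw [hvar l hl k hk, zero_mul]
    rw [h2, Finset.sum_insert hl] at h1
    linarith
  set R : MvPolynomial (Fin n) ℤ :=
    C b * QF + ∑ l ∈ univ \ J, C (-(f l * bl l)) * QG l with hR
  have hR1 : Hi R := hi_add (hi_smul _ hQF1) (hi_sum _ _ fun l _ => hi_smul _ (hQG1 l))
  have hFrel : ∀ w : Fin n → ℤ, (∀ l, l ∉ J → eval (fun j => P j + w j) (G l) = 0) →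
      eval (fun j => P j + w j) F = 0 → ∑ j ∈ J, E j * w j + eval w R = 0 := by
    intro w hw1 hw2
    have h1 := hQF2 w
    rw [hw2, hF, zero_add] at h1
    change 0 = ∑ k, f k * w k + eval w QF at h1
    have h2 : ∑ k, f k * w k = ∑ j ∈ J, f j * w j + ∑ l ∈ univ \ J, f l * w l := by
      rw [← Finset.sum_sdiff (Finset.subset_univ J), add_comm]
    rw [h2] at h1
    have h3 : ∀ l ∈ univ \ J, b * (f l * w l) =
        -(∑ j ∈ J, bl l * D j l * f l * w j) - f l * bl l * eval w (QG l) := by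
      intro l hl
      have hl' : l ∉ J := by simpa using hl
      have h4 := hrel l hl' w (hw1 l hl')
      have h5 : ∑ j ∈ J, bl l * D j l * f l * w j = bl l * f l * ∑ j ∈ J, D j l * w j := by
        rw [Finset.mul_sum]
        exact Finset.sum_congr rfl fun j _ => by ring
      rw [h5, hbbl l hl']
      linear_combination (bl l * f l) * h4
    have h6 : ∑ j ∈ J, E j * w j = b * ∑ j ∈ J, f j * w j -
        ∑ l ∈ univ \ J, ∑ j ∈ J, bl l * D j l * f l * w j := by
      rw [Finset.sum_comm, Finset.mul_sum, ← Finset.sum_sub_distrib]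
      refine Finset.sum_congr rfl fun j _ => ?_
      rw [hEj j, sub_mul, Finset.sum_mul]
      ring
    have h7 : eval w R = b * eval w QF - ∑ l ∈ univ \ J, f l * bl l * eval w (QG l) := by
      rw [hR, map_add, map_mul, eval_C, map_sum, sub_eq_add_neg, ← Finset.sum_neg_distrib]
      congr 1
      refine Finset.sum_congr rfl fun l _ => ?_
      rw [map_mul, eval_C]
      ring
    have h8 : b * ∑ l ∈ univ \ J, f l * w l =
        -(∑ l ∈ univ \ J, ∑ j ∈ J, bl l * D j l * f l * w j) -
          ∑ l ∈ univ \ J, f l * bl l * eval w (QG l) := by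
      rw [Finset.mul_sum, Finset.sum_congr rfl h3, Finset.sum_sub_distrib,
        Finset.sum_neg_distrib]
    rw [h6, h7]
    linear_combination (-b) * h1 - h8
  -- solve for `w i`
  obtain ⟨v, hv⟩ := inv_pow (r := r) hp hbE.2
  have hi2 : ∀ w : Fin n → ℤ, (∀ l, l ∉ J → eval (fun j => P j + w j) (G l) = 0) →
      eval (fun j => P j + w j) F = 0 →
      (p : ℤ) ^ r ∣ w i - ∑ j ∈ J.erase i, (-(v * E j)) * w j - eval w (C (-v) * R) := by
    intro w hw1 hw2
    have h1 := hFrel w hw1 hw2
    rw [← Finset.add_sum_erase J (fun j => E j * w j) hiJ] at h1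
    have h2 : ∑ j ∈ J.erase i, (-(v * E j)) * w j = -v * ∑ j ∈ J.erase i, E j * w j := by
      rw [Finset.mul_sum]
      exact Finset.sum_congr rfl fun j _ => by ring
    rw [h2, map_mul, eval_C]
    have h3 : w i - -v * ∑ j ∈ J.erase i, E j * w j - -v * eval w R =
        (E i * v - 1) * (-w i) := by
      linear_combination v * h1
    rw [h3]
    exact Dvd.dvd.mul_right hv _
  by_cases hkJ : k ∈ J
  · by_cases hki : k = i
    · subst hki
      exact ⟨fun j => -(v * E j), C (-v) * R, hi_smul _ hR1, hi2⟩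
    · refine ⟨fun j => if j = k then 1 else 0, 0, hi_zero, fun w _ _ => ?_⟩
      have h1 : ∑ j ∈ J.erase i, (if j = k then (1 : ℤ) else 0) * w j = w k := by
        rw [Finset.sum_eq_single k]
        · simp
        · intro j _ hj
          simp [hj]
        · intro h
          exact absurd (Finset.mem_erase.mpr ⟨hki, hkJ⟩) h
      simp only [h1, map_zero, sub_self, dvd_zero]
  · obtain ⟨u, hu⟩ := inv_pow (r := r) hp (hDl k hkJ)
    refine ⟨fun j => -u * (D j k - D i k * (v * E j)),
      C (-u) * (C (D i k) * (C (-v) * R) + QG k),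
      hi_smul _ (hi_add (hi_smul _ (hi_smul _ hR1)) (hQG1 k)), fun w hw1 hw2 => ?_⟩
    have h1 := hrel k hkJ w (hw1 k hkJ)
    rw [← Finset.add_sum_erase J (fun j => D j k * w j) hiJ] at h1
    have h2 := hi2 w hw1 hw2
    have h3 : ∑ j ∈ J.erase i, (-u * (D j k - D i k * (v * E j))) * w j =
        -u * ∑ j ∈ J.erase i, D j k * w j - u * D i k * ∑ j ∈ J.erase i, (-(v * E j)) * w j := by
      rw [Finset.mul_sum, Finset.mul_sum, ← Finset.sum_sub_distrib]
      exact Finset.sum_congr rfl fun j _ => by ring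
    rw [h3]
    rw [map_mul, map_add, map_mul, eval_C, eval_C]
    have h4 : w k - (-u * ∑ j ∈ J.erase i, D j k * w j -
          u * D i k * ∑ j ∈ J.erase i, (-(v * E j)) * w j) -
        -u * (D i k * eval w (C (-v) * R) + eval w (QG k)) =
        (D k k * u - 1) * (-w k) + (-(u * D i k)) *
          (w i - ∑ j ∈ J.erase i, (-(v * E j)) * w j - eval w (C (-v) * R)) := by
      linear_combination u * h1
    rw [h4]
    exact dvd_add (Dvd.dvd.mul_right hu _) (Dvd.dvd.mul_left h2 _)

end Pool.PW
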